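import Pool.Agent.H31.SY.Instn

set_option autoImplicit false

/-!
# A sentence without infinite models has symmetric refutations of polynomial size
-/

namespace Pool.H31.SY

open FirstOrder FirstOrder.Language Pool.H93.SY
open scoped Pointwise

variable {L : FirstOrder.Language.{0, 0}} [L.IsRelational] {ψ : L.Sentence} {m r n : ℕ}

theorem lin_good {D : List (ℕ × Finset (Bool × Inst L ℕ))} (hD : Lin (subf ψ) D) {T : ℕ}
    (hT : ∀ x ∈ D, x.1 ≤ T) (hn : T < r + n) :
    ∃ Ls : Set (Set (Lit (circ ψ m r n).N)), Good ψ (circ ψ m r n) Ls ∧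
      (∀ x ∈ D, LS ψ r n x ⊆ Ls) ∧ Ls.ncard ≤ 2 * D.length * (r + n) ^ T := by
  induction hD with
  | nil =>
    refine ⟨∅, good_empty _ _, fun x hx => absurd hx List.not_mem_nil, ?_⟩
    rw [Set.ncard_empty]
    exact Nat.zero_le _
  | @cons D t Γ h1 h2 ih =>
    obtain ⟨Ls, hg, hl, hc⟩ := ih fun x hx => hT x (List.mem_cons_of_mem _ hx)
    have ht : t ≤ T := hT (t, Γ) List.mem_cons_self
    obtain ⟨Q, hQ1, hQ2, hQ3, hQ4⟩ := inst_rule (m := m) h2 (lt_of_le_of_lt ht hn) hl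
    have hg1 : Good ψ (circ ψ m r n) (Ls ∪ Q) := good_union hg hQ1 hQ3
    have hg2 : Good ψ (circ ψ m r n) ((Ls ∪ Q) ∪ LS ψ r n (t, Γ)) := by
      refine good_union hg1 (closed_LS ψ (t, Γ)) ?_
      rintro _ ⟨e, he, rfl⟩
      exact hQ4 e he
    refine ⟨_, hg2, ?_, ?_⟩
    · intro x hx
      rcases List.mem_cons.1 hx with rfl | hx
      · exact Set.subset_union_right
      · exact (hl x hx).trans (Set.subset_union_left.trans Set.subset_union_left)
    · have hn0 : 0 < r + n := lt_of_le_of_lt (Nat.zero_le T) hn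
      obtain ⟨p₀⟩ := exists_pt hn
      have h3 : (r + n) ^ t ≤ (r + n) ^ T := Nat.pow_le_pow_right hn0 ht
      have h4 : (LS ψ r n (t, Γ)).ncard ≤ (r + n) ^ t := ncard_LS p₀ h2.wf
      have h5 := Set.ncard_union_le (Ls ∪ Q) (LS ψ r n (t, Γ))
      have h6 := Set.ncard_union_le Ls Q
      rw [List.length_cons]
      have h7 : 2 * (D.length + 1) * (r + n) ^ T = 2 * D.length * (r + n) ^ T + 2 * (r + n) ^ T := by ring
      rw [h7]
      have h8 : ((Ls ∪ Q) ∪ LS ψ r n (t, Γ)).ncard ≤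
        Ls.ncard + Q.ncard + (LS ψ r n (t, Γ)).ncard := h5.trans (Nat.add_le_add_right h6 _)
      omega

omit [L.IsRelational] in
theorem dep_le {k : ℕ} (φ : L.BoundedFormula Empty k) :
    ∀ p ∈ subf φ, dep p.2 ≤ dep φ := by
  induction φ with
  | falsum =>
    rintro p (rfl : p = _)
    exact le_rfl
  | equal t₁ t₂ =>
    rintro p (rfl : p = _)
    exact le_rfl
  | rel R ts =>
    rintro p (rfl : p = _)
    exact le_rfl
  | imp φ χ ih1 ih2 =>
    rintro p (rfl | hp | hp)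
    · exact le_rfl
    · exact (ih1 p hp).trans ((le_max_left _ _).trans (Nat.le_succ _))
    · exact (ih2 p hp).trans ((le_max_right _ _).trans (Nat.le_succ _))
  | all φ ih =>
    rintro p (rfl | hp)
    · exact le_rfl
    · exact (ih p hp).trans (Nat.le_succ _)

omit [L.IsRelational] in
theorem rk_le (a : Nd ψ r n) : rk ψ a ≤ dep ψ := by
  obtain ⟨s, v⟩ := a
  rcases s with _ | R | p
  · exact Nat.zero_le _
  · exact Nat.zero_le _
  · exact dep_le ψ p.1 p.2

theorem gate_ne_mod (a : Nd ψ r n) (c : ZMod m) (S : Set (Lit (Nd ψ r n))) :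
    gateN ψ m a ≠ .mod c S := by
  obtain ⟨s, v⟩ := a
  rcases s with _ | R | ⟨⟨k, φ⟩, h⟩
  · intro h
    exact Gate.noConfusion rfl rfl rfl (heq_of_eq h)
  · intro h
    exact Gate.noConfusion rfl rfl rfl (heq_of_eq h)
  · cases φ with
    | falsum =>
      intro h
      exact Gate.noConfusion rfl rfl rfl (heq_of_eq h)
    | equal t₁ t₂ =>
      intro h
      exact Gate.noConfusion rfl rfl rfl (heq_of_eq h)
    | rel R ts =>
      intro h
      exact Gate.noConfusion rfl rfl rfl (heq_of_eq h)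
    | imp φ χ =>
      intro h
      exact Gate.noConfusion rfl rfl rfl (heq_of_eq h)
    | all φ =>
      intro h
      exact Gate.noConfusion rfl rfl rfl (heq_of_eq h)

theorem card_nd {K : ℕ} (hK : ∀ s : Sh ψ, ar ψ s ≤ K) (hn : 0 < r + n) :
    Nat.card (Nd ψ r n) ≤ Nat.card (Sh ψ) * (r + n) ^ K := by
  classical
  have := Fintype.ofFinite (Sh ψ)
  have h1 : Nat.card (Nd ψ r n) = ∑ s : Sh ψ, (r + n) ^ ar ψ s := by
    unfold Nd
    rw [Nat.card_eq_fintype_card, Fintype.card_sigma]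
    apply Finset.sum_congr rfl
    intro s _
    simp
  rw [h1, Nat.card_eq_fintype_card]
  have h2 : ∑ s : Sh ψ, (r + n) ^ ar ψ s ≤ ∑ _s : Sh ψ, (r + n) ^ K :=
    Finset.sum_le_sum fun s _ => Nat.pow_le_pow_right hn (hK s)
  rw [Finset.sum_const, Finset.card_univ, smul_eq_mul] at h2
  exact h2

/-- The refutation given by a set of lines. -/
def mkRef {C : Circuit L m r n} (Ls : Set (Set (Lit C.N))) (hc : Closed C Ls)
    (o : Set (Lit C.N) → ℕ) (hs : ∀ Γ ∈ Ls, Step ψ ∅ C {Δ | Δ ∈ Ls ∧ o Δ < o Γ} Γ)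
    (he : ∅ ∈ Ls) : Refutation ψ m r n ∅ where
  C := C
  lines := Ls
  smul_mem := hc
  order := o
  step := hs
  empty_mem := he

/-- **Upper bound.** If `ψ` has no infinite model then the translations of `ψ` over all large universes
`Fin r ⊕ Fin n` have symmetric refutations of polynomial size and bounded depth, without modular
gates. -/
theorem upper {L : FirstOrder.Language.{0, 0}} [L.IsRelational] (ψ : L.Sentence)
    (h : ∀ (M : Type) [L.Structure M] [Infinite M], ¬ M ⊨ ψ) :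
    ∃ c : ℕ, ∀ r n : ℕ, c ≤ r + n → ∀ m : ℕ, ∃ R : Refutation ψ m r n ∅, R.size ≤ (r + n) ^ c ∧
      (∀ a, R.C.rank a ≤ c) ∧ ∀ a c' S, R.C.gate a ≠ .mod c' S := by
  classical
  have hder : Der (subf ψ) 0 {(false, (⟨0, ψ, default⟩ : Inst L ℕ))} := by
    by_contra hcon
    obtain ⟨M, hM⟩ := exists_model ψ hcon
    exact h ℕ hM
  obtain ⟨D, hD, hmem⟩ := exists_lin hder
  obtain ⟨T, hT⟩ : ∃ T, ∀ x ∈ D, x.1 ≤ T := by
    have hf : (D.map Prod.fst).toFinset.Nonempty :=
      ⟨0, by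
        rw [List.mem_toFinset, List.mem_map]
        exact ⟨_, hmem, rfl⟩⟩
    refine ⟨(D.map Prod.fst).toFinset.max' hf, fun x hx => ?_⟩
    apply Finset.le_max'
    rw [List.mem_toFinset, List.mem_map]
    exact ⟨x, hx, rfl⟩
  obtain ⟨K, hK⟩ : ∃ K, ∀ s : Sh ψ, ar ψ s ≤ K := by
    obtain ⟨K, hK⟩ := Finite.bddAbove_range (ar ψ)
    exact ⟨K, fun s => hK ⟨s, rfl⟩⟩
  refine ⟨Nat.card (Sh ψ) + 2 * D.length + 2 + K + T + 1 + dep ψ, fun r n hn m => ?_⟩
  have hn0 : 0 < r + n := by omega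
  have hTn : T < r + n := by omega
  obtain ⟨p₀⟩ := exists_pt hn0
  obtain ⟨Ls, hg, hl, hc⟩ := lin_good (m := m) hD hT hTn
  -- the hypothesis
  let x0 : Lit (circ ψ m r n).N := lit ψ ψ (self_mem_subf ψ) default
  have hx0 : ∀ v : Fin 0 → Fin r ⊕ Fin n, lit ψ ψ (self_mem_subf ψ) v = x0 := by
    intro v
    have e : v = default := Subsingleton.elim _ _
    rw [e]
  have hcl1 : Closed (circ ψ m r n) {{x0}} := by
    intro σ Γ hΓ
    obtain rfl : Γ = _ := hΓ
    show σ • {x0} = {x0}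
    rw [Set.smul_set_singleton]
    have h1 : σ • x0 = x0 :=
      (lit_act ψ ψ (self_mem_subf ψ) default σ).symm.trans (hx0 _)
    rw [h1]
  have hg1 : Good ψ (circ ψ m r n) (Ls ∪ {{x0}}) := by
    refine good_union hg hcl1 ?_
    intro Γ hΓ
    obtain rfl : Γ = _ := hΓ
    exact .hyp (x := x0) (rep_lit ψ m ψ (self_mem_subf ψ) default) (Set.mem_singleton _)
  have hneg : ({x0.neg} : Set (Lit (circ ψ m r n).N)) ∈ Ls := by
    apply hl _ hmem
    refine ⟨fun _ => p₀, fun i hi => absurd hi (Nat.not_lt_zero i), ?_⟩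
    ext x
    constructor
    · rintro (rfl : x = _)
      refine ⟨_, Finset.mem_singleton_self _, self_mem_subf ψ, ?_⟩
      exact (congrArg Lit.neg (hx0 _)).symm
    · rintro ⟨y, hy, h1, rfl⟩
      rw [Finset.mem_singleton] at hy
      subst hy
      exact congrArg Lit.neg (hx0 _)
  have hcl2 : Closed (circ ψ m r n) {∅} := by
    intro σ Γ hΓ
    obtain rfl : Γ = _ := hΓ
    exact Set.smul_set_empty
  have hg2 : Good ψ (circ ψ m r n) ((Ls ∪ {{x0}}) ∪ {∅}) := by
    refine good_union hg1 hcl2 ?_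
    intro Γ hΓ
    obtain rfl : Γ = _ := hΓ
    refine step_cut (x := x0) ?_ ?_
    · rw [insert_empty_eq]
      exact Or.inr rfl
    · rw [insert_empty_eq]
      exact Or.inl hneg
  obtain ⟨hcl, o, hord⟩ := hg2
  refine ⟨mkRef (C := circ ψ m r n) ((Ls ∪ {{x0}}) ∪ {∅}) hcl o hord (Or.inr rfl), ?_, ?_, ?_⟩
  · show Nat.card (Nd ψ r n) + ((Ls ∪ {{x0}}) ∪ {∅}).ncard ≤ _
    have h1 := card_nd hK hn0
    have h2 := Set.ncard_union_le (Ls ∪ {{x0}}) {∅}
    have h3 := Set.ncard_union_le Ls {{x0}}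
    rw [Set.ncard_singleton] at h2 h3
    have h4 : Nat.card (Nd ψ r n) + ((Ls ∪ {{x0}}) ∪ {∅}).ncard ≤
        Nat.card (Sh ψ) * (r + n) ^ K + 2 * D.length * (r + n) ^ T + 2 := by omega
    refine h4.trans ?_
    have h5 : (r + n) ^ K ≤ (r + n) ^ (K + T) := Nat.pow_le_pow_right hn0 (by omega)
    have h6 : (r + n) ^ T ≤ (r + n) ^ (K + T) := Nat.pow_le_pow_right hn0 (by omega)
    have h7 : 1 ≤ (r + n) ^ (K + T) := Nat.one_le_pow _ _ hn0
    have h8 : Nat.card (Sh ψ) * (r + n) ^ K + 2 * D.length * (r + n) ^ T + 2 ≤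
        (Nat.card (Sh ψ) + 2 * D.length + 2) * (r + n) ^ (K + T) := by nlinarith
    have h9 : (Nat.card (Sh ψ) + 2 * D.length + 2) * (r + n) ^ (K + T) ≤ (r + n) * (r + n) ^ (K + T) :=
      Nat.mul_le_mul_right _ (by omega)
    refine (h8.trans h9).trans ?_
    rw [← pow_succ']
    exact Nat.pow_le_pow_right hn0 (by omega)
  · intro a
    have h1 := rk_le (ψ := ψ) (r := r) (n := n) a
    show rk ψ a ≤ _
    omega
  · intro a c' S
    exact gate_ne_mod a c' S

end Pool.H31.SY
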