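import Pool.Agent.H31.SY.Search

set_option autoImplicit false

/-!
# The circuit of the instances of the subformulas of a sentence
-/

namespace Pool.H31.SY

open FirstOrder FirstOrder.Language Pool.H93.SY
open scoped Pointwise

variable {L : FirstOrder.Language.{0, 0}} [L.IsRelational]

/-- The relation symbols which occur in `ψ`. -/
abbrev Rels (ψ : L.Sentence) : Type := {R : Σ k : ℕ, L.Relations k //
  ∃ (j : ℕ) (ts : Fin R.1 → L.Term (Empty ⊕ Fin j)),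
    (⟨j, .rel R.2 ts⟩ : Σ k : ℕ, L.BoundedFormula Empty k) ∈ subf ψ}

/-- The subformulas of `ψ`. -/
abbrev Subs (ψ : L.Sentence) : Type := {p : Σ k : ℕ, L.BoundedFormula Empty k // p ∈ subf ψ}

/-- The kinds of nodes. -/
abbrev Sh (ψ : L.Sentence) : Type := Option (Rels ψ ⊕ Subs ψ)

/-- The number of points in a node. -/
def ar (ψ : L.Sentence) : Sh ψ → ℕ
  | none => 0
  | some (.inl R) => R.1.1
  | some (.inr p) => p.1.1

/-- The action of a permutation of `Fin n` on the universe. -/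
abbrev pm {r n : ℕ} (σ : Equiv.Perm (Fin n)) : Fin r ⊕ Fin n → Fin r ⊕ Fin n := Sum.map id σ

theorem pm_one {r n : ℕ} (p : Fin r ⊕ Fin n) : pm (1 : Equiv.Perm (Fin n)) p = p := by
  cases p <;> rfl

theorem pm_mul {r n : ℕ} (σ τ : Equiv.Perm (Fin n)) (p : Fin r ⊕ Fin n) :
    pm (σ * τ) p = pm σ (pm τ p) := by
  cases p <;> rfl

theorem pm_pm_inv {r n : ℕ} (σ : Equiv.Perm (Fin n)) (p : Fin r ⊕ Fin n) :
    pm σ (pm σ⁻¹ p) = p := by
  rw [← pm_mul, mul_inv_cancel, pm_one]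

theorem pm_inj {r n : ℕ} (σ : Equiv.Perm (Fin n)) :
    Function.Injective (pm σ : Fin r ⊕ Fin n → Fin r ⊕ Fin n) :=
  Function.Injective.sumMap Function.injective_id σ.injective

/-- The nodes: a truth constant, atoms and instances of subformulas. -/
def Nd (ψ : L.Sentence) (r n : ℕ) : Type := Σ s : Sh ψ, (Fin (ar ψ s) → Fin r ⊕ Fin n)

omit [L.IsRelational] in
theorem nd_ext {ψ : L.Sentence} {r n : ℕ} {s : Sh ψ} {v w : Fin (ar ψ s) → Fin r ⊕ Fin n}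
    (h : ∀ i, v i = w i) : (⟨s, v⟩ : Nd ψ r n) = ⟨s, w⟩ :=
  congrArg (fun u => (⟨s, u⟩ : Nd ψ r n)) (funext h)

instance (ψ : L.Sentence) (r n : ℕ) : MulAction (Equiv.Perm (Fin n)) (Nd ψ r n) where
  smul σ x := ⟨x.1, fun i => pm σ (x.2 i)⟩
  one_smul x := nd_ext fun i => pm_one (x.2 i)
  mul_smul g h x := nd_ext fun i => pm_mul g h (x.2 i)

theorem finite_rels (ψ : L.Sentence) : Finite (Rels ψ) := by
  classical
  let g : (Σ k : ℕ, L.BoundedFormula Empty k) → Option (Σ k : ℕ, L.Relations k) := fun p =>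
    match p with
    | ⟨_, .rel R _⟩ => some ⟨_, R⟩
    | _ => none
  have h1 : (g '' subf ψ).Finite := (subf_finite ψ).image g
  have h2 : {R : Σ k : ℕ, L.Relations k | ∃ (j : ℕ) (ts : Fin R.1 → L.Term (Empty ⊕ Fin j)),
      (⟨j, .rel R.2 ts⟩ : Σ k : ℕ, L.BoundedFormula Empty k) ∈ subf ψ}.Finite := by
    refine (h1.preimage ((Option.some_injective _).injOn)).subset ?_
    rintro R ⟨j, ts, h⟩
    exact ⟨_, h, rfl⟩
  exact h2.to_subtype

instance (ψ : L.Sentence) : Finite (Sh ψ) := by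
  have := finite_rels ψ
  have : Finite (Subs ψ) := (subf_finite ψ).to_subtype
  infer_instance

instance (ψ : L.Sentence) (r n : ℕ) : Finite (Nd ψ r n) := by
  unfold Nd
  infer_instance

theorem sub_imp1 {ψ : L.Sentence} {k : ℕ} {φ χ : L.BoundedFormula Empty k}
    (h : (⟨k, .imp φ χ⟩ : Σ k : ℕ, L.BoundedFormula Empty k) ∈ subf ψ) :
    (⟨k, φ⟩ : Σ k : ℕ, L.BoundedFormula Empty k) ∈ subf ψ :=
  subf_trans ψ _ h (Set.mem_insert_of_mem _ (Or.inl (self_mem_subf φ)))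

theorem sub_imp2 {ψ : L.Sentence} {k : ℕ} {φ χ : L.BoundedFormula Empty k}
    (h : (⟨k, .imp φ χ⟩ : Σ k : ℕ, L.BoundedFormula Empty k) ∈ subf ψ) :
    (⟨k, χ⟩ : Σ k : ℕ, L.BoundedFormula Empty k) ∈ subf ψ :=
  subf_trans ψ _ h (Set.mem_insert_of_mem _ (Or.inr (self_mem_subf χ)))

theorem sub_all {ψ : L.Sentence} {k : ℕ} {φ : L.BoundedFormula Empty (k + 1)}
    (h : (⟨k, .all φ⟩ : Σ k : ℕ, L.BoundedFormula Empty k) ∈ subf ψ) :
    (⟨k + 1, φ⟩ : Σ k : ℕ, L.BoundedFormula Empty k) ∈ subf ψ :=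
  subf_trans ψ _ h (Set.mem_insert_of_mem _ (self_mem_subf φ))

open Classical in
/-- The signed node of an instance. -/
noncomputable def lit (ψ : L.Sentence) {r n k : ℕ} (φ : L.BoundedFormula Empty k)
    (h : (⟨k, φ⟩ : Σ k : ℕ, L.BoundedFormula Empty k) ∈ subf ψ) (v : Fin k → Fin r ⊕ Fin n) :
    Lit (Nd ψ r n) :=
  match φ, h with
  | .falsum, _ => ⟨⟨none, fun i => Fin.elim0 i⟩, false⟩
  | .equal t₁ t₂, _ => ⟨⟨none, fun i => Fin.elim0 i⟩, decide (tv v t₁ = tv v t₂)⟩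
  | .rel R ts, h => ⟨⟨some (.inl ⟨⟨_, R⟩, ⟨k, ts, h⟩⟩), fun i => tv v (ts i)⟩, true⟩
  | .imp φ χ, h => ⟨⟨some (.inr ⟨⟨k, .imp φ χ⟩, h⟩), v⟩, false⟩
  | .all φ, h => ⟨⟨some (.inr ⟨⟨k, .all φ⟩, h⟩), v⟩, true⟩

/-- The label of an instance. -/
noncomputable def gateF (ψ : L.Sentence) (m : ℕ) {r n k : ℕ} (φ : L.BoundedFormula Empty k)
    (h : (⟨k, φ⟩ : Σ k : ℕ, L.BoundedFormula Empty k) ∈ subf ψ) (v : Fin k → Fin r ⊕ Fin n) :
    Gate (Atom L (Fin r ⊕ Fin n)) (Nd ψ r n) m :=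
  match φ, h with
  | .imp φ χ, h => .and {lit ψ φ (sub_imp1 h) v, (lit ψ χ (sub_imp2 h) v).neg}
  | .all φ, h => .and (Set.range fun b => lit ψ φ (sub_all h) (Fin.snoc v b))
  | .falsum, _ => .and ∅
  | .equal _ _, _ => .and ∅
  | .rel _ _, _ => .and ∅

/-- The label of a node. -/
noncomputable def gateN (ψ : L.Sentence) (m : ℕ) {r n : ℕ} :
    Nd ψ r n → Gate (Atom L (Fin r ⊕ Fin n)) (Nd ψ r n) m
  | ⟨none, _⟩ => .and ∅
  | ⟨some (.inl R), v⟩ => .var ⟨R.1.1, R.1.2, v⟩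
  | ⟨some (.inr p), v⟩ => gateF ψ m p.1.2 p.2 v

/-- The depth of a formula. -/
def dep : {k : ℕ} → L.BoundedFormula Empty k → ℕ
  | _, .falsum => 0
  | _, .equal _ _ => 0
  | _, .rel _ _ => 0
  | _, .imp φ χ => max (dep φ) (dep χ) + 1
  | _, .all φ => dep φ + 1

/-- The level of a node. -/
def rk (ψ : L.Sentence) {r n : ℕ} : Nd ψ r n → ℕ
  | ⟨none, _⟩ => 0
  | ⟨some (.inl _), _⟩ => 0
  | ⟨some (.inr p), _⟩ => dep p.1.2

theorem tv_comp {P Q : Type} (σ : P → Q) {k : ℕ} (v : Fin k → P)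
    (t : L.Term (Empty ⊕ Fin k)) : tv (fun i => σ (v i)) t = σ (tv v t) := by
  cases t with
  | var x =>
    cases x with
    | inl e => exact e.elim
    | inr i => rfl
  | func f ts => exact isEmptyElim f

theorem smul_lit {N G : Type} [Monoid G] [MulAction G N] (g : G) (x : N) (b : Bool) :
    g • (⟨x, b⟩ : Lit N) = ⟨g • x, b⟩ := rfl

theorem smul_neg {N G : Type} [Monoid G] [MulAction G N] (g : G) (x : Lit N) :
    g • x.neg = (g • x).neg := rfl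

theorem lit_act (ψ : L.Sentence) {r n k : ℕ} (φ : L.BoundedFormula Empty k)
    (h : (⟨k, φ⟩ : Σ k : ℕ, L.BoundedFormula Empty k) ∈ subf ψ) (v : Fin k → Fin r ⊕ Fin n)
    (σ : Equiv.Perm (Fin n)) : lit ψ φ h (fun i => pm σ (v i)) = σ • lit ψ φ h v := by
  cases φ with
  | falsum =>
    show (⟨⟨none, _⟩, false⟩ : Lit (Nd ψ r n)) = ⟨⟨none, _⟩, false⟩
    have : (fun i => Fin.elim0 i : Fin 0 → Fin r ⊕ Fin n) = fun i => pm σ (Fin.elim0 i) :=
      funext fun i => i.elim0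
    exact congrArg (fun w : Fin 0 → Fin r ⊕ Fin n => (⟨⟨none, w⟩, false⟩ : Lit (Nd ψ r n))) this
  | equal t₁ t₂ =>
    have h1 : (fun i => Fin.elim0 i : Fin 0 → Fin r ⊕ Fin n) = fun i => pm σ (Fin.elim0 i) :=
      funext fun i => i.elim0
    have h2 : decide (tv (fun i => pm σ (v i)) t₁ = tv (fun i => pm σ (v i)) t₂) =
        decide (tv v t₁ = tv v t₂) := by
      rw [tv_comp (pm σ) v t₁, tv_comp (pm σ) v t₂]
      exact decide_eq_decide.2 (pm_inj σ).eq_iff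
    show (⟨⟨none, _⟩, decide (tv (fun i => pm σ (v i)) t₁ = tv (fun i => pm σ (v i)) t₂)⟩ :
      Lit (Nd ψ r n)) = ⟨⟨none, _⟩, decide (tv v t₁ = tv v t₂)⟩
    rw [h2]
    exact congrArg (fun w : Fin 0 → Fin r ⊕ Fin n =>
      (⟨⟨none, w⟩, decide (tv v t₁ = tv v t₂)⟩ : Lit (Nd ψ r n))) h1
  | rel R ts =>
    show (⟨⟨some (.inl ⟨⟨_, R⟩, ⟨k, ts, h⟩⟩), fun i => tv (fun i => pm σ (v i)) (ts i)⟩, true⟩ :
      Lit (Nd ψ r n)) = ⟨⟨some (.inl ⟨⟨_, R⟩, ⟨k, ts, h⟩⟩), fun i => pm σ (tv v (ts i))⟩, true⟩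
    simp only [tv_comp (pm σ) v]
  | imp φ χ => rfl
  | all φ => rfl

theorem snoc_comp {P Q : Type} (σ : P → Q) {k : ℕ} (v : Fin k → P) (b : P) :
    (fun i => σ ((Fin.snoc v b : Fin (k + 1) → P) i)) =
      (Fin.snoc (fun i => σ (v i)) (σ b) : Fin (k + 1) → Q) := by
  funext i
  refine Fin.lastCases ?_ (fun j => ?_) i
  · rw [Fin.snoc_last, Fin.snoc_last]
  · rw [Fin.snoc_castSucc, Fin.snoc_castSucc]

theorem gateF_act (ψ : L.Sentence) (m : ℕ) {r n k : ℕ} (φ : L.BoundedFormula Empty k)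
    (h : (⟨k, φ⟩ : Σ k : ℕ, L.BoundedFormula Empty k) ∈ subf ψ) (v : Fin k → Fin r ⊕ Fin n)
    (σ : Equiv.Perm (Fin n)) :
    gateF ψ m φ h (fun i => pm σ (v i)) = (gateF ψ m φ h v).act σ := by
  cases φ with
  | falsum =>
    show Gate.and ∅ = Gate.and (σ • (∅ : Set (Lit (Nd ψ r n))))
    rw [Set.smul_set_empty]
  | equal t₁ t₂ =>
    show Gate.and ∅ = Gate.and (σ • (∅ : Set (Lit (Nd ψ r n))))
    rw [Set.smul_set_empty]
  | rel R ts =>
    show Gate.and ∅ = Gate.and (σ • (∅ : Set (Lit (Nd ψ r n))))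
    rw [Set.smul_set_empty]
  | imp φ χ =>
    show Gate.and {lit ψ φ (sub_imp1 h) (fun i => pm σ (v i)),
      (lit ψ χ (sub_imp2 h) (fun i => pm σ (v i))).neg} =
      Gate.and (σ • ({lit ψ φ (sub_imp1 h) v, (lit ψ χ (sub_imp2 h) v).neg} :
        Set (Lit (Nd ψ r n))))
    rw [lit_act, lit_act, Set.smul_set_insert, Set.smul_set_singleton, smul_neg]
  | all φ =>
    show Gate.and (Set.range fun b => lit ψ φ (sub_all h) (Fin.snoc (fun i => pm σ (v i)) b)) =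
      Gate.and (σ • (Set.range fun b => lit ψ φ (sub_all h) (Fin.snoc v b)))
    congr 1
    ext x
    constructor
    · rintro ⟨b, rfl⟩
      refine Set.mem_smul_set.2 ⟨_, ⟨pm σ⁻¹ b, rfl⟩, ?_⟩
      show σ • lit ψ φ (sub_all h) (Fin.snoc v (pm σ⁻¹ b)) = _
      rw [← lit_act, snoc_comp]
      rw [pm_pm_inv]
    · intro hx
      obtain ⟨_, ⟨b, rfl⟩, rfl⟩ := Set.mem_smul_set.1 hx
      refine ⟨pm σ b, ?_⟩
      show lit ψ φ (sub_all h) (Fin.snoc (fun i => pm σ (v i)) (pm σ b)) = _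
      rw [← snoc_comp, lit_act]

theorem gateN_act (ψ : L.Sentence) (m : ℕ) {r n : ℕ} (σ : Equiv.Perm (Fin n)) (a : Nd ψ r n) :
    gateN ψ m (σ • a) = (gateN ψ m a).act σ := by
  obtain ⟨s, v⟩ := a
  rcases s with _ | R | p
  · show Gate.and ∅ = Gate.and (σ • (∅ : Set (Lit (Nd ψ r n))))
    rw [Set.smul_set_empty]
  · rfl
  · exact gateF_act ψ m p.1.2 p.2 v σ

theorem rk_lit (ψ : L.Sentence) {r n k : ℕ} (φ : L.BoundedFormula Empty k)
    (h : (⟨k, φ⟩ : Σ k : ℕ, L.BoundedFormula Empty k) ∈ subf ψ) (v : Fin k → Fin r ⊕ Fin n) :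
    rk ψ (lit ψ φ h v).node ≤ dep φ := by
  cases φ with
  | falsum => exact le_rfl
  | equal t₁ t₂ => exact le_rfl
  | rel R ts => exact le_rfl
  | imp φ χ => exact le_rfl
  | all φ => exact le_rfl

theorem rk_lt (ψ : L.Sentence) (m : ℕ) {r n : ℕ} (a : Nd ψ r n) :
    ∀ x ∈ (gateN ψ m a).children, rk ψ x.node < rk ψ a := by
  obtain ⟨s, v⟩ := a
  rcases s with _ | R | ⟨⟨k, φ⟩, h⟩
  · intro x hx
    exact absurd hx (Set.notMem_empty _)
  · intro x hx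
    exact absurd hx (Set.notMem_empty _)
  · cases φ with
    | falsum =>
      intro x hx
      exact absurd hx (Set.notMem_empty _)
    | equal t₁ t₂ =>
      intro x hx
      exact absurd hx (Set.notMem_empty _)
    | rel R ts =>
      intro x hx
      exact absurd hx (Set.notMem_empty _)
    | imp φ χ =>
      intro x hx
      have h1 : x ∈ ({lit ψ φ (sub_imp1 h) v, (lit ψ χ (sub_imp2 h) v).neg} :
        Set (Lit (Nd ψ r n))) := hx
      show rk ψ x.node < max (dep φ) (dep χ) + 1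
      rcases h1 with rfl | h1
      · exact Nat.lt_succ_of_le ((rk_lit ψ φ _ v).trans (le_max_left _ _))
      · rw [Set.mem_singleton_iff] at h1
        rw [h1]
        exact Nat.lt_succ_of_le ((rk_lit ψ χ _ v).trans (le_max_right _ _))
    | all φ =>
      intro x hx
      have h1 : x ∈ Set.range fun b => lit ψ φ (sub_all h) (Fin.snoc v b) := hx
      show rk ψ x.node < dep φ + 1
      obtain ⟨b, rfl⟩ := h1
      exact Nat.lt_succ_of_le (rk_lit ψ φ _ _)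

/-- The circuit. -/
noncomputable def circ (ψ : L.Sentence) (m r n : ℕ) : Circuit L m r n where
  N := Nd ψ r n
  gate := gateN ψ m
  rank := rk ψ
  rank_lt := rk_lt ψ m
  gate_smul := gateN_act ψ m

theorem rep_lit (ψ : L.Sentence) (m : ℕ) {r n k : ℕ} (φ : L.BoundedFormula Empty k)
    (h : (⟨k, φ⟩ : Σ k : ℕ, L.BoundedFormula Empty k) ∈ subf ψ) (v : Fin k → Fin r ⊕ Fin n) :
    (circ ψ m r n).Rep φ v (lit ψ φ h v) := by
  induction φ with
  | falsum => exact ⟨rfl, rfl⟩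
  | equal t₁ t₂ => exact ⟨decide_eq_true_iff, rfl⟩
  | rel R ts => exact ⟨rfl, rfl⟩
  | imp φ χ ih1 ih2 =>
    exact ⟨rfl, _, _, ih1 (sub_imp1 h) v, ih2 (sub_imp2 h) v, rfl⟩
  | all φ ih =>
    refine ⟨rfl, _, rfl, fun b => ⟨_, ⟨b, rfl⟩, ih (sub_all h) (Fin.snoc v b)⟩, ?_⟩
    rintro _ ⟨b, rfl⟩
    exact ⟨b, ih (sub_all h) (Fin.snoc v b)⟩

end Pool.H31.SY
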