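import Pool.Agent.H31.SY.Search

set_option autoImplicit false

/-!
# Derivations of the search calculus as finite lists
-/

namespace Pool.H31.SY

open FirstOrder FirstOrder.Language Pool.H93.SY

variable {L : FirstOrder.Language.{0, 0}} [L.IsRelational]
  {S : Set (Σ k : ℕ, L.BoundedFormula Empty k)}

open Classical in
/-- The rules of the search calculus with premises in `P`. -/
inductive Rule (S : Set (Σ k : ℕ, L.BoundedFormula Empty k))
    (P : ℕ × Finset (Bool × Inst L ℕ) → Prop) :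
    ℕ → Finset (Bool × Inst L ℕ) → Prop
  | weak {t : ℕ} {Γ Δ : Finset (Bool × Inst L ℕ)} : WF S t Δ → Γ ⊆ Δ → P (t, Γ) → Rule S P t Δ
  | ident {t : ℕ} {Γ : Finset (Bool × Inst L ℕ)} (c : Inst L ℕ) : WF S t Γ →
      (true, c) ∈ Γ → (false, c) ∈ Γ → Rule S P t Γ
  | atom {t : ℕ} {Γ : Finset (Bool × Inst L ℕ)} {k k' m : ℕ} (R : L.Relations m)
      (ts : Fin m → L.Term (Empty ⊕ Fin k)) (ts' : Fin m → L.Term (Empty ⊕ Fin k'))
      (v : Fin k → ℕ) (v' : Fin k' → ℕ) : WF S t Γ → (∀ i, tv v (ts i) = tv v' (ts' i)) →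
      (true, ⟨k, .rel R ts, v⟩) ∈ Γ → (false, ⟨k', .rel R ts', v'⟩) ∈ Γ → Rule S P t Γ
  | cut {t : ℕ} {Γ : Finset (Bool × Inst L ℕ)} (c : Inst L ℕ) : WF S t Γ → Below S t c →
      P (t, insert (true, c) Γ) → P (t, insert (false, c) Γ) → Rule S P t Γ
  | falsum {t : ℕ} {Γ : Finset (Bool × Inst L ℕ)} {k : ℕ} (v : Fin k → ℕ) : WF S t Γ →
      (false, ⟨k, .falsum, v⟩) ∈ Γ → Rule S P t Γ
  | eq {t : ℕ} {Γ : Finset (Bool × Inst L ℕ)} {k : ℕ} (t₁ t₂ : L.Term (Empty ⊕ Fin k))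
      (v : Fin k → ℕ) : WF S t Γ → tv v t₁ = tv v t₂ → (true, ⟨k, .equal t₁ t₂, v⟩) ∈ Γ →
      Rule S P t Γ
  | ne {t : ℕ} {Γ : Finset (Bool × Inst L ℕ)} {k : ℕ} (t₁ t₂ : L.Term (Empty ⊕ Fin k))
      (v : Fin k → ℕ) : WF S t Γ → tv v t₁ ≠ tv v t₂ → (false, ⟨k, .equal t₁ t₂, v⟩) ∈ Γ →
      Rule S P t Γ
  | impR {t : ℕ} {Γ : Finset (Bool × Inst L ℕ)} {k : ℕ} (φ χ : L.BoundedFormula Empty k)
      (v : Fin k → ℕ) : WF S t Γ → (true, ⟨k, .imp φ χ, v⟩) ∈ Γ →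
      P (t, insert (false, ⟨k, φ, v⟩) (insert (true, ⟨k, χ, v⟩) Γ)) → Rule S P t Γ
  | impL {t : ℕ} {Γ : Finset (Bool × Inst L ℕ)} {k : ℕ} (φ χ : L.BoundedFormula Empty k)
      (v : Fin k → ℕ) : WF S t Γ → (false, ⟨k, .imp φ χ, v⟩) ∈ Γ →
      P (t, insert (true, ⟨k, φ, v⟩) Γ) → P (t, insert (false, ⟨k, χ, v⟩) Γ) → Rule S P t Γ
  | allL {t : ℕ} {Γ : Finset (Bool × Inst L ℕ)} {k : ℕ} (φ : L.BoundedFormula Empty (k + 1))
      (v : Fin k → ℕ) (b : ℕ) : WF S t Γ → b < t → (false, ⟨k, .all φ, v⟩) ∈ Γ →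
      P (t, insert (false, ⟨k + 1, φ, Fin.snoc v b⟩) Γ) → Rule S P t Γ
  | allR {t : ℕ} {Γ : Finset (Bool × Inst L ℕ)} {k : ℕ} (φ : L.BoundedFormula Empty (k + 1))
      (v : Fin k → ℕ) : WF S t Γ → (true, ⟨k, .all φ, v⟩) ∈ Γ →
      (∀ b < t, P (t, insert (true, ⟨k + 1, φ, Fin.snoc v b⟩) Γ)) →
      P (t + 1, insert (true, ⟨k + 1, φ, Fin.snoc v t⟩) Γ) → Rule S P t Γ
  | new {t : ℕ} {Γ : Finset (Bool × Inst L ℕ)} : WF S t Γ → P (t + 1, Γ) → Rule S P t Γ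

theorem Rule.mono {P Q : ℕ × Finset (Bool × Inst L ℕ) → Prop} (h : ∀ x, P x → Q x) {t : ℕ}
    {Γ : Finset (Bool × Inst L ℕ)} (hr : Rule S P t Γ) : Rule S Q t Γ := by
  cases hr with
  | weak h1 h2 h3 => exact .weak h1 h2 (h _ h3)
  | ident c h1 h2 h3 => exact .ident c h1 h2 h3
  | atom R ts ts' v v' h1 h2 h3 h4 => exact .atom R ts ts' v v' h1 h2 h3 h4
  | cut c h1 h2 h3 h4 => exact .cut c h1 h2 (h _ h3) (h _ h4)
  | falsum v h1 h2 => exact .falsum v h1 h2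
  | eq t₁ t₂ v h1 h2 h3 => exact .eq t₁ t₂ v h1 h2 h3
  | ne t₁ t₂ v h1 h2 h3 => exact .ne t₁ t₂ v h1 h2 h3
  | impR φ χ v h1 h2 h3 => exact .impR φ χ v h1 h2 (h _ h3)
  | impL φ χ v h1 h2 h3 h4 => exact .impL φ χ v h1 h2 (h _ h3) (h _ h4)
  | allL φ v b h1 h2 h3 h4 => exact .allL φ v b h1 h2 h3 (h _ h4)
  | allR φ v h1 h2 h3 h4 => exact .allR φ v h1 h2 (fun b hb => h _ (h3 b hb)) (h _ h4)
  | new h1 h2 => exact .new h1 (h _ h2)

theorem Rule.wf {P : ℕ × Finset (Bool × Inst L ℕ) → Prop} {t : ℕ}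
    {Γ : Finset (Bool × Inst L ℕ)} (hr : Rule S P t Γ) : WF S t Γ := by
  cases hr <;> assumption

theorem Der.wf {t : ℕ} {Γ : Finset (Bool × Inst L ℕ)} (h : Der S t Γ) : WF S t Γ := by
  classical
  induction h with
  | weak h1 _ _ _ => exact h1
  | ident c h1 _ _ => exact h1
  | atom R ts ts' v v' h1 _ _ _ => exact h1
  | cut c _ _ ih1 _ => exact ih1.mono (Finset.subset_insert _ _)
  | falsum v h1 _ => exact h1
  | eq t₁ t₂ v h1 _ _ => exact h1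
  | ne t₁ t₂ v h1 _ _ => exact h1
  | impR φ χ v _ _ ih =>
    exact (ih.mono (Finset.subset_insert _ _)).mono (Finset.subset_insert _ _)
  | impL φ χ v _ _ _ ih1 _ => exact ih1.mono (Finset.subset_insert _ _)
  | allL φ v b _ _ _ ih => exact ih.mono (Finset.subset_insert _ _)
  | allR φ v h1 _ _ _ _ _ => exact h1
  | new h1 _ _ => exact h1

/-- Finite derivations: every member of the list follows from later members. -/
inductive Lin (S : Set (Σ k : ℕ, L.BoundedFormula Empty k)) :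
    List (ℕ × Finset (Bool × Inst L ℕ)) → Prop
  | nil : Lin S []
  | cons {D : List (ℕ × Finset (Bool × Inst L ℕ))} {t : ℕ} {Γ : Finset (Bool × Inst L ℕ)} :
      Lin S D → Rule S (fun x => x ∈ D) t Γ → Lin S ((t, Γ) :: D)

theorem Lin.append {D D' : List (ℕ × Finset (Bool × Inst L ℕ))} (h : Lin S D) (h' : Lin S D') :
    Lin S (D ++ D') := by
  induction h with
  | nil => exact h'
  | cons h1 h2 ih => exact .cons ih (h2.mono fun x hx => List.mem_append_left _ hx)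

/-- The members of a finite family of derivable sequents lie in one finite derivation. -/
theorem Lin.family {f : ℕ → ℕ × Finset (Bool × Inst L ℕ)} (m : ℕ)
    (h : ∀ b < m, ∃ D, Lin S D ∧ f b ∈ D) : ∃ D, Lin S D ∧ ∀ b < m, f b ∈ D := by
  induction m with
  | zero => exact ⟨[], .nil, fun b hb => absurd hb (Nat.not_lt_zero b)⟩
  | succ m ih =>
    obtain ⟨D, hD, h1⟩ := ih fun b hb => h b (hb.trans (Nat.lt_succ_self m))
    obtain ⟨D', hD', h2⟩ := h m (Nat.lt_succ_self m)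
    refine ⟨D ++ D', hD.append hD', fun b hb => ?_⟩
    rcases Nat.lt_succ_iff_lt_or_eq.1 hb with h3 | rfl
    · exact List.mem_append_left _ (h1 b h3)
    · exact List.mem_append_right _ h2

/-- Every derivable sequent has a finite derivation. -/
theorem exists_lin {t : ℕ} {Γ : Finset (Bool × Inst L ℕ)} (h : Der S t Γ) :
    ∃ D, Lin S D ∧ (t, Γ) ∈ D := by
  classical
  induction h with
  | weak h1 h2 _ ih =>
    obtain ⟨D, hD, h3⟩ := ih
    exact ⟨_ :: D, .cons hD (.weak h1 h2 h3), List.mem_cons_self⟩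
  | ident c h1 h2 h3 => exact ⟨_ :: [], .cons .nil (.ident c h1 h2 h3), List.mem_cons_self⟩
  | atom R ts ts' v v' h1 h2 h3 h4 =>
    exact ⟨_ :: [], .cons .nil (.atom R ts ts' v v' h1 h2 h3 h4), List.mem_cons_self⟩
  | cut c h1 _ ih1 ih2 =>
    obtain ⟨D, hD, h3⟩ := ih1
    obtain ⟨D', hD', h4⟩ := ih2
    refine ⟨_ :: (D ++ D'), .cons (hD.append hD') (.cut c ?_ ?_ (List.mem_append_left _ h3)
      (List.mem_append_right _ h4)), List.mem_cons_self⟩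
    · exact h1.wf.mono (Finset.subset_insert _ _)
    · exact h1.wf _ (Finset.mem_insert_self _ _)
  | falsum v h1 h2 => exact ⟨_ :: [], .cons .nil (.falsum v h1 h2), List.mem_cons_self⟩
  | eq t₁ t₂ v h1 h2 h3 => exact ⟨_ :: [], .cons .nil (.eq t₁ t₂ v h1 h2 h3), List.mem_cons_self⟩
  | ne t₁ t₂ v h1 h2 h3 => exact ⟨_ :: [], .cons .nil (.ne t₁ t₂ v h1 h2 h3), List.mem_cons_self⟩
  | impR φ χ v h1 h2 ih =>
    obtain ⟨D, hD, h3⟩ := ih
    exact ⟨_ :: D, .cons hD (.impR φ χ v ((h2.wf.mono (Finset.subset_insert _ _)).mono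
      (Finset.subset_insert _ _)) h1 h3), List.mem_cons_self⟩
  | impL φ χ v h1 h2 _ ih1 ih2 =>
    obtain ⟨D, hD, h3⟩ := ih1
    obtain ⟨D', hD', h4⟩ := ih2
    exact ⟨_ :: (D ++ D'), .cons (hD.append hD') (.impL φ χ v
      (h2.wf.mono (Finset.subset_insert _ _)) h1 (List.mem_append_left _ h3)
      (List.mem_append_right _ h4)), List.mem_cons_self⟩
  | allL φ v b h1 h2 h3 ih =>
    obtain ⟨D, hD, h4⟩ := ih
    exact ⟨_ :: D, .cons hD (.allL φ v b (h3.wf.mono (Finset.subset_insert _ _)) h1 h2 h4),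
      List.mem_cons_self⟩
  | allR φ v h1 h2 h3 h4 ih1 ih2 =>
    obtain ⟨D, hD, h5⟩ := Lin.family _ ih1
    obtain ⟨D', hD', h6⟩ := ih2
    exact ⟨_ :: (D ++ D'), .cons (hD.append hD') (.allR φ v h1 h2
      (fun b hb => List.mem_append_left _ (h5 b hb)) (List.mem_append_right _ h6)),
      List.mem_cons_self⟩
  | new h1 _ ih =>
    obtain ⟨D, hD, h2⟩ := ih
    exact ⟨_ :: D, .cons hD (.new h1 h2), List.mem_cons_self⟩

end Pool.H31.SY
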