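import Pool.Agent.H31.SY.Circ
import Pool.Agent.H31.SY.Lin

set_option autoImplicit false

/-!
# Sets of lines which can be derived in order
-/

namespace Pool.H31.SY

open FirstOrder FirstOrder.Language Pool.H93.SY
open scoped Pointwise

variable {L : FirstOrder.Language.{0, 0}} [L.IsRelational]

theorem step_mono {ψ : L.Sentence} {m r n : ℕ} {C : Circuit L m r n} {P Q : Set (Set (Lit C.N))}
    (h : P ⊆ Q) {Γ : Set (Lit C.N)} (hs : Step ψ ∅ C P Γ) : Step ψ ∅ C Q Γ := by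
  cases hs with
  | hyp h1 h2 => exact .hyp h1 h2
  | fact h1 h2 h3 => exact .fact h1 h2 h3
  | ident h1 h2 h3 => exact .ident h1 h2 h3
  | weak h1 h2 => exact .weak (h h1) h2
  | cut h1 h2 => exact .cut (h h1) (h h2)
  | andI h1 h2 h3 => exact .andI h1 h2 fun x hx => h (h3 x hx)
  | andE h1 h2 h3 => exact .andE h1 h2 (h h3)
  | total h1 => exact .total h1
  | excl h1 h2 h3 h4 h5 => exact .excl h1 h2 h3 h4 h5
  | one h1 h2 h3 => exact .one h1 h2 h3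
  | zero h1 h2 h3 => exact .zero h1 h2 h3
  | sum h1 h2 h3 h4 h5 h6 => exact .sum h1 h2 h3 h4 h5 h6

/-- The set is closed under the permutations of the points. -/
def Closed {L : FirstOrder.Language.{0, 0}} {m r n : ℕ} (C : Circuit L m r n)
    (Ls : Set (Set (Lit C.N))) : Prop :=
  ∀ (σ : Equiv.Perm (Fin n)), ∀ Γ ∈ Ls, σ • Γ ∈ Ls

/-- The lines can be derived in some order. -/
def Good (ψ : L.Sentence) {m r n : ℕ} (C : Circuit L m r n) (Ls : Set (Set (Lit C.N))) : Prop :=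
  Closed C Ls ∧ ∃ order : Set (Lit C.N) → ℕ,
    ∀ Γ ∈ Ls, Step ψ ∅ C {Δ | Δ ∈ Ls ∧ order Δ < order Γ} Γ

theorem good_empty (ψ : L.Sentence) {m r n : ℕ} (C : Circuit L m r n) : Good ψ C ∅ :=
  ⟨fun _ _ h => absurd h (Set.notMem_empty _), fun _ => 0, fun _ h => absurd h (Set.notMem_empty _)⟩

instance finite_lit {L : FirstOrder.Language.{0, 0}} {m r n : ℕ} (C : Circuit L m r n) :
    Finite (Lit C.N) := by
  have e : Lit C.N ≃ C.N × Bool :=
    { toFun := fun x => (x.node, x.pos)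
      invFun := fun p => ⟨p.1, p.2⟩
      left_inv := fun _ => rfl
      right_inv := fun _ => rfl }
  exact Finite.of_equiv _ e.symm

open Classical in
theorem good_union {ψ : L.Sentence} {m r n : ℕ} {C : Circuit L m r n} {Ls Q : Set (Set (Lit C.N))}
    (h : Good ψ C Ls) (hQ : Closed C Q) (hs : ∀ Γ ∈ Q, Step ψ ∅ C Ls Γ) : Good ψ C (Ls ∪ Q) := by
  obtain ⟨hc, order, ho⟩ := h
  refine ⟨?_, ?_⟩
  · rintro σ Γ (h1 | h1)
    · exact Or.inl (hc σ Γ h1)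
    · exact Or.inr (hQ σ Γ h1)
  · obtain ⟨B, hB⟩ : ∃ B, ∀ Γ, order Γ ≤ B := by
      have := Finite.bddAbove_range order
      obtain ⟨B, hB⟩ := this
      exact ⟨B, fun Γ => hB ⟨Γ, rfl⟩⟩
    refine ⟨fun Γ => if Γ ∈ Ls then order Γ else B + 1, ?_⟩
    intro Γ hΓ
    by_cases h1 : Γ ∈ Ls
    · refine step_mono ?_ (ho Γ h1)
      rintro Δ ⟨h2, h3⟩
      refine ⟨Or.inl h2, ?_⟩
      simp only [if_pos h1, if_pos h2]
      exact h3
    · have h2 : Γ ∈ Q := hΓ.resolve_left h1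
      refine step_mono ?_ (hs Γ h2)
      intro Δ h3
      refine ⟨Or.inl h3, ?_⟩
      simp only [if_neg h1, if_pos h3]
      exact Nat.lt_succ_of_le (hB Δ)

/-! ### The lines of a pattern -/

/-- The signed node with a sign. -/
def sg {N : Type} (s : Bool) (x : Lit N) : Lit N := if s = true then x else x.neg

theorem smul_sg {N G : Type} [Monoid G] [MulAction G N] (g : G) (s : Bool) (x : Lit N) :
    g • sg s x = sg s (g • x) := by
  cases s <;> rfl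

variable (ψ : L.Sentence)

/-- The line of a sequent of instances over names, `e` gives the points denoted by the names. -/
def line {r n : ℕ} (e : ℕ → Fin r ⊕ Fin n) (Γ : Finset (Bool × Inst L ℕ)) : Set (Lit (Nd ψ r n)) :=
  {x | ∃ y ∈ Γ, ∃ h : (⟨y.2.k, y.2.φ⟩ : Σ k : ℕ, L.BoundedFormula Empty k) ∈ subf ψ,
    x = sg y.1 (lit ψ y.2.φ h fun i => e (y.2.v i))}

/-- The lines of a pattern. -/
def LS (r n : ℕ) (x : ℕ × Finset (Bool × Inst L ℕ)) : Set (Set (Lit (Nd ψ r n))) :=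
  {Λ | ∃ e : ℕ → Fin r ⊕ Fin n, Set.InjOn e {i | i < x.1} ∧ Λ = line ψ e x.2}

theorem line_smul {r n : ℕ} (σ : Equiv.Perm (Fin n)) (e : ℕ → Fin r ⊕ Fin n)
    (Γ : Finset (Bool × Inst L ℕ)) : σ • line ψ e Γ = line ψ (fun i => pm σ (e i)) Γ := by
  ext x
  constructor
  · intro hx
    obtain ⟨y, ⟨z, hz, h, rfl⟩, rfl⟩ := Set.mem_smul_set.1 hx
    refine ⟨z, hz, h, ?_⟩
    rw [smul_sg, ← lit_act]
  · rintro ⟨z, hz, h, rfl⟩
    refine Set.mem_smul_set.2 ⟨_, ⟨z, hz, h, rfl⟩, ?_⟩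
    rw [smul_sg, ← lit_act]

theorem closed_LS {m r n : ℕ} (x : ℕ × Finset (Bool × Inst L ℕ)) :
    Closed (circ ψ m r n) (LS ψ r n x) := by
  rintro σ _ ⟨e, he, rfl⟩
  refine ⟨fun i => pm σ (e i), ?_, line_smul ψ σ e x.2⟩
  intro i hi j hj hij
  exact he hi hj (pm_inj σ hij)

variable {ψ}

theorem mem_line {r n : ℕ} {e : ℕ → Fin r ⊕ Fin n} {Γ : Finset (Bool × Inst L ℕ)} {s : Bool}
    {k : ℕ} {φ : L.BoundedFormula Empty k} {v : Fin k → ℕ} (h : (s, (⟨k, φ, v⟩ : Inst L ℕ)) ∈ Γ)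
    (hs : (⟨k, φ⟩ : Σ k : ℕ, L.BoundedFormula Empty k) ∈ subf ψ) :
    sg s (lit ψ φ hs fun i => e (v i)) ∈ line ψ e Γ := ⟨_, h, hs, rfl⟩

theorem line_mono {r n : ℕ} {e : ℕ → Fin r ⊕ Fin n} {Γ Δ : Finset (Bool × Inst L ℕ)} (h : Γ ⊆ Δ) :
    line ψ e Γ ⊆ line ψ e Δ := by
  rintro x ⟨y, hy, h1, rfl⟩
  exact ⟨y, h hy, h1, rfl⟩

open Classical in
theorem line_insert {r n : ℕ} {e : ℕ → Fin r ⊕ Fin n} {Γ : Finset (Bool × Inst L ℕ)} {s : Bool}
    {k : ℕ} {φ : L.BoundedFormula Empty k} {v : Fin k → ℕ}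
    (hs : (⟨k, φ⟩ : Σ k : ℕ, L.BoundedFormula Empty k) ∈ subf ψ) :
    line ψ e (insert (s, (⟨k, φ, v⟩ : Inst L ℕ)) Γ) =
      insert (sg s (lit ψ φ hs fun i => e (v i))) (line ψ e Γ) := by
  ext x
  constructor
  · rintro ⟨y, hy, h1, rfl⟩
    rcases Finset.mem_insert.1 hy with rfl | hy
    · exact Or.inl rfl
    · exact Or.inr ⟨y, hy, h1, rfl⟩
  · rintro (rfl | ⟨y, hy, h1, rfl⟩)
    · exact ⟨_, Finset.mem_insert_self _ _, hs, rfl⟩
    · exact ⟨y, Finset.mem_insert_of_mem hy, h1, rfl⟩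

theorem line_congr {S : Set (Σ k : ℕ, L.BoundedFormula Empty k)} {r n t : ℕ} {e e' : ℕ → Fin r ⊕ Fin n}
    {Γ : Finset (Bool × Inst L ℕ)} (hw : WF S t Γ) (h : ∀ i < t, e i = e' i) :
    line ψ e Γ = line ψ e' Γ := by
  have key : ∀ e e' : ℕ → Fin r ⊕ Fin n, (∀ i < t, e i = e' i) → line ψ e Γ ⊆ line ψ e' Γ := by
    intro e e' h
    rintro x ⟨y, hy, h1, rfl⟩
    refine ⟨y, hy, h1, ?_⟩
    have : (fun i => e (y.2.v i)) = fun i => e' (y.2.v i) :=
      funext fun i => h _ ((hw y hy).2 i)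
    rw [this]
  exact Set.Subset.antisymm (key e e' h) (key e' e fun i hi => (h i hi).symm)

theorem ncard_LS {S : Set (Σ k : ℕ, L.BoundedFormula Empty k)} {r n t : ℕ} (p₀ : Fin r ⊕ Fin n)
    {Γ : Finset (Bool × Inst L ℕ)} (hw : WF S t Γ) : (LS ψ r n (t, Γ)).ncard ≤ (r + n) ^ t := by
  classical
  let f : (Fin t → Fin r ⊕ Fin n) → Set (Lit (Nd ψ r n)) := fun w =>
    line ψ (fun i => if h : i < t then w ⟨i, h⟩ else p₀) Γ
  have h1 : LS ψ r n (t, Γ) ⊆ Set.range f := by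
    rintro _ ⟨e, -, rfl⟩
    refine ⟨fun i => e i, ?_⟩
    apply line_congr hw
    intro i hi
    rw [dif_pos hi]
  have h2 : (Set.range f).ncard ≤ (r + n) ^ t := by
    rw [← Set.image_univ]
    refine (Set.ncard_image_le (Set.toFinite _)).trans ?_
    rw [Set.ncard_univ, Nat.card_eq_fintype_card]
    simp
  exact (Set.ncard_le_ncard h1 (Set.finite_range f)).trans h2

end Pool.H31.SY
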