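import Pool.Agent.H31.SY.Good

set_option autoImplicit false

/-!
# Instantiation of the rules of the search calculus
-/

namespace Pool.H31.SY

open FirstOrder FirstOrder.Language Pool.H93.SY
open scoped Pointwise

variable {L : FirstOrder.Language.{0, 0}} [L.IsRelational] {ψ : L.Sentence} {m r n : ℕ}

theorem neg_neg {N : Type} (x : Lit N) : x.neg.neg = x := by
  obtain ⟨a, s⟩ := x
  cases s <;> rfl

theorem step_ident {P : Set (Set (Lit (circ ψ m r n).N))} {Λ : Set (Lit (circ ψ m r n).N)}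
    {x : Lit (circ ψ m r n).N} (h1 : x ∈ Λ) (h2 : x.neg ∈ Λ) : Step ψ ∅ (circ ψ m r n) P Λ := by
  obtain ⟨a, s⟩ := x
  cases s with
  | true => exact .ident (a := a) (b := a) rfl h1 h2
  | false => exact .ident (a := a) (b := a) rfl h2 h1

theorem step_cut {P : Set (Set (Lit (circ ψ m r n).N))} {Λ : Set (Lit (circ ψ m r n).N)}
    {x : Lit (circ ψ m r n).N} (h1 : insert x Λ ∈ P) (h2 : insert x.neg Λ ∈ P) :
    Step ψ ∅ (circ ψ m r n) P Λ := by
  obtain ⟨a, s⟩ := x
  cases s with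
  | true => exact .cut (a := a) h1 h2
  | false => exact .cut (a := a) h2 h1

theorem step_top {P : Set (Set (Lit (circ ψ m r n).N))} {Λ : Set (Lit (circ ψ m r n).N)}
    {w : Fin 0 → Fin r ⊕ Fin n} (h : (⟨⟨none, w⟩, true⟩ : Lit (Nd ψ r n)) ∈ Λ) :
    Step ψ ∅ (circ ψ m r n) P Λ :=
  .andI (S := ∅) (a := (⟨none, w⟩ : Nd ψ r n)) rfl h fun _ hx => absurd hx (Set.notMem_empty _)

theorem tv_lt {k t : ℕ} {v : Fin k → ℕ} (h : ∀ i, v i < t) (τ : L.Term (Empty ⊕ Fin k)) :
    tv v τ < t := by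
  cases τ with
  | var x =>
    cases x with
    | inl e => exact e.elim
    | inr i => exact h i
  | func f ts => exact isEmptyElim f

theorem exists_new {t : ℕ} (ht : t < r + n) (e : ℕ → Fin r ⊕ Fin n) : ∃ b : Fin r ⊕ Fin n, ∀ i < t, e i ≠ b := by
  classical
  by_contra hcon
  push Not at hcon
  have h1 : (Finset.univ : Finset (Fin r ⊕ Fin n)) ⊆ (Finset.range t).image e := by
    intro b _
    obtain ⟨i, hi, h⟩ := hcon b
    exact Finset.mem_image.2 ⟨i, Finset.mem_range.2 hi, h⟩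
  have h2 := (Finset.card_le_card h1).trans Finset.card_image_le
  rw [Finset.card_univ, Fintype.card_sum, Fintype.card_fin, Fintype.card_fin,
    Finset.card_range] at h2
  omega

theorem injOn_update {t : ℕ} {e : ℕ → Fin r ⊕ Fin n} (he : Set.InjOn e {i | i < t}) {b : Fin r ⊕ Fin n}
    (hb : ∀ i < t, e i ≠ b) : Set.InjOn (Function.update e t b) {i | i < t + 1} := by
  intro i hi j hj hij
  have hi' : i < t + 1 := hi
  have hj' : j < t + 1 := hj
  rcases Nat.lt_succ_iff_lt_or_eq.1 hi' with h1 | h1 <;>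
    rcases Nat.lt_succ_iff_lt_or_eq.1 hj' with h2 | h2
  · rw [Function.update_of_ne h1.ne, Function.update_of_ne h2.ne] at hij
    exact he h1 h2 hij
  · rw [Function.update_of_ne h1.ne, h2, Function.update_self] at hij
    exact absurd hij (hb i h1)
  · rw [Function.update_of_ne h2.ne, h1, Function.update_self] at hij
    exact absurd hij.symm (hb j h2)
  · rw [h1, h2]

theorem ncard_pat {α : Type} {t : ℕ} (p₀ : Fin r ⊕ Fin n) (F : (ℕ → Fin r ⊕ Fin n) → α)
    (h : ∀ e e', (∀ i < t, e i = e' i) → F e = F e') :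
    {Λ | ∃ e : ℕ → Fin r ⊕ Fin n, Set.InjOn e {i | i < t} ∧ Λ = F e}.ncard ≤ (r + n) ^ t := by
  classical
  let f : (Fin t → Fin r ⊕ Fin n) → α := fun w => F (fun i => if h : i < t then w ⟨i, h⟩ else p₀)
  have h1 : {Λ | ∃ e : ℕ → Fin r ⊕ Fin n, Set.InjOn e {i | i < t} ∧ Λ = F e} ⊆ Set.range f := by
    rintro _ ⟨e, -, rfl⟩
    refine ⟨fun i => e i, ?_⟩
    apply h
    intro i hi
    rw [dif_pos hi]
  have h2 : (Set.range f).ncard ≤ (r + n) ^ t := by
    rw [← Set.image_univ]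
    refine (Set.ncard_image_le (Set.toFinite _)).trans ?_
    rw [Set.ncard_univ, Nat.card_eq_fintype_card]
    simp
  exact (Set.ncard_le_ncard h1 (Set.finite_range f)).trans h2

theorem exists_pt {t : ℕ} (ht : t < r + n) : Nonempty (Fin r ⊕ Fin n) := by
  rcases Nat.eq_zero_or_pos r with h | h
  · exact ⟨Sum.inr ⟨0, by omega⟩⟩
  · exact ⟨Sum.inl ⟨0, h⟩⟩

open Classical in
/-- The lines of a pattern which follows by a rule from the patterns in `D` can be derived from the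
lines of the patterns in `D` and from a closed set of at most `(r + n) ^ t` further lines. -/
theorem inst_rule {D : List (ℕ × Finset (Bool × Inst L ℕ))} {t : ℕ}
    {Γ : Finset (Bool × Inst L ℕ)} (hr : Rule (subf ψ) (fun x => x ∈ D) t Γ) (ht : t < r + n)
    {P : Set (Set (Lit (circ ψ m r n).N))} (hP : ∀ x ∈ D, LS ψ r n x ⊆ P) :
    ∃ Q : Set (Set (Lit (circ ψ m r n).N)), Closed (circ ψ m r n) Q ∧ Q.ncard ≤ (r + n) ^ t ∧
      (∀ Λ ∈ Q, Step ψ ∅ (circ ψ m r n) P Λ) ∧
      ∀ e : ℕ → Fin r ⊕ Fin n, Set.InjOn e {i | i < t} → Step ψ ∅ (circ ψ m r n) (P ∪ Q) (line ψ e Γ) := by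
  have trivQ : (∀ e : ℕ → Fin r ⊕ Fin n, Set.InjOn e {i | i < t} →
      Step ψ ∅ (circ ψ m r n) P (line ψ e Γ)) →
      ∃ Q : Set (Set (Lit (circ ψ m r n).N)), Closed (circ ψ m r n) Q ∧ Q.ncard ≤ (r + n) ^ t ∧
      (∀ Λ ∈ Q, Step ψ ∅ (circ ψ m r n) P Λ) ∧
      ∀ e : ℕ → Fin r ⊕ Fin n, Set.InjOn e {i | i < t} → Step ψ ∅ (circ ψ m r n) (P ∪ Q) (line ψ e Γ) := by
    intro h
    refine ⟨∅, fun _ _ h1 => absurd h1 (Set.notMem_empty _), ?_,
      fun _ h1 => absurd h1 (Set.notMem_empty _),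
      fun e he => step_mono Set.subset_union_left (h e he)⟩
    rw [Set.ncard_empty]
    exact Nat.zero_le _
  obtain ⟨p₀⟩ := exists_pt ht
  cases hr with
  | weak h1 h2 h3 =>
    exact trivQ fun e he => .weak (hP _ h3 ⟨e, he, rfl⟩) (line_mono h2)
  | ident c h1 h2 h3 =>
    exact trivQ fun e he => step_ident (mem_line h2 (h1 _ h2).1) (mem_line h3 (h1 _ h2).1)
  | atom R ts ts' v v' h1 h2 h3 h4 =>
    refine trivQ fun e he => step_ident (mem_line h3 (h1 _ h3).1) ?_
    have h5 := mem_line (e := e) h4 (h1 _ h4).1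
    have h6 : lit ψ (.rel R ts') (h1 _ h4).1 (fun i => e (v' i)) =
        lit ψ (.rel R ts) (h1 _ h3).1 (fun i => e (v i)) := by
      show (⟨⟨some (.inl ⟨⟨_, R⟩, _⟩), fun i => tv (fun i => e (v' i)) (ts' i)⟩, true⟩ :
        Lit (Nd ψ r n)) = ⟨⟨some (.inl ⟨⟨_, R⟩, _⟩), fun i => tv (fun i => e (v i)) (ts i)⟩, true⟩
      simp only [tv_comp e, h2]
    rw [h6] at h5
    exact h5
  | cut c h1 h2 h3 h4 =>
    refine trivQ fun e he => ?_
    have h5 := hP _ h3 ⟨e, he, rfl⟩
    have h6 := hP _ h4 ⟨e, he, rfl⟩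
    obtain ⟨k, φ, v⟩ := c
    rw [line_insert h2.1] at h5 h6
    exact step_cut h5 h6
  | falsum v h1 h2 =>
    exact trivQ fun e he => step_top (mem_line h2 (h1 _ h2).1)
  | eq t₁ t₂ v h1 h2 h3 =>
    refine trivQ fun e he => ?_
    have h5 := mem_line (e := e) h3 (h1 _ h3).1
    have h6 : lit ψ (.equal t₁ t₂) (h1 _ h3).1 (fun i => e (v i)) =
        (⟨⟨none, fun i => Fin.elim0 i⟩, true⟩ : Lit (Nd ψ r n)) := by
      show (⟨⟨none, _⟩, decide (tv (fun i => e (v i)) t₁ = tv (fun i => e (v i)) t₂)⟩ :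
        Lit (Nd ψ r n)) = ⟨⟨none, _⟩, true⟩
      have h7 : decide (tv (fun i => e (v i)) t₁ = tv (fun i => e (v i)) t₂) = true := by
        rw [decide_eq_true_iff, tv_comp e v t₁, tv_comp e v t₂, h2]
      rw [h7]
    have h8 : sg true (lit ψ (.equal t₁ t₂) (h1 _ h3).1 (fun i => e (v i))) =
        lit ψ (.equal t₁ t₂) (h1 _ h3).1 (fun i => e (v i)) := rfl
    rw [h8, h6] at h5
    exact step_top h5
  | ne t₁ t₂ v h1 h2 h3 =>
    refine trivQ fun e he => ?_
    have h5 := mem_line (e := e) h3 (h1 _ h3).1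
    have h6 : lit ψ (.equal t₁ t₂) (h1 _ h3).1 (fun i => e (v i)) =
        (⟨⟨none, fun i => Fin.elim0 i⟩, false⟩ : Lit (Nd ψ r n)) := by
      show (⟨⟨none, _⟩, decide (tv (fun i => e (v i)) t₁ = tv (fun i => e (v i)) t₂)⟩ :
        Lit (Nd ψ r n)) = ⟨⟨none, _⟩, false⟩
      have h7 : decide (tv (fun i => e (v i)) t₁ = tv (fun i => e (v i)) t₂) = false := by
        rw [decide_eq_false_iff_not, tv_comp e v t₁, tv_comp e v t₂]
        intro h8
        exact h2 (he (tv_lt (h1 _ h3).2 t₁) (tv_lt (h1 _ h3).2 t₂) h8)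
      rw [h7]
    rw [h6] at h5
    exact step_top h5
  | impR φ χ v h1 h2 h3 =>
    refine trivQ fun e he => ?_
    have hs := (h1 _ h2).1
    have h5 := mem_line (e := e) h2 hs
    have h6 := hP _ h3 ⟨e, he, rfl⟩
    rw [line_insert (sub_imp1 hs), line_insert (sub_imp2 hs)] at h6
    refine .andE (S := {lit ψ φ (sub_imp1 hs) fun i => e (v i),
      (lit ψ χ (sub_imp2 hs) fun i => e (v i)).neg}) rfl h5 ?_
    have h7 : line ψ e Γ ∪ Lit.neg '' {lit ψ φ (sub_imp1 hs) fun i => e (v i),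
        (lit ψ χ (sub_imp2 hs) fun i => e (v i)).neg} =
        insert (sg false (lit ψ φ (sub_imp1 hs) fun i => e (v i)))
          (insert (sg true (lit ψ χ (sub_imp2 hs) fun i => e (v i))) (line ψ e Γ)) := by
      rw [Set.image_pair, neg_neg, Set.union_comm, Set.insert_union, Set.singleton_union]
      rfl
    exact Set.mem_of_eq_of_mem h7 h6
  | impL φ χ v h1 h2 h3 h4 =>
    refine trivQ fun e he => ?_
    have hs := (h1 _ h2).1
    have h5 := mem_line (e := e) h2 hs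
    have h6 := hP _ h3 ⟨e, he, rfl⟩
    have h7 := hP _ h4 ⟨e, he, rfl⟩
    rw [line_insert (sub_imp1 hs)] at h6
    rw [line_insert (sub_imp2 hs)] at h7
    refine .andI (S := {lit ψ φ (sub_imp1 hs) fun i => e (v i),
      (lit ψ χ (sub_imp2 hs) fun i => e (v i)).neg}) rfl h5 ?_
    rintro x (rfl | h8)
    · exact h6
    · obtain rfl : x = _ := h8
      exact h7
  | allL φ v b h1 h2 h3 h4 =>
    have hs := (h1 _ h3).1
    let F : (ℕ → Fin r ⊕ Fin n) → Set (Lit (circ ψ m r n).N) := fun e =>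
      line ψ e Γ ∪ Lit.neg '' Set.range fun b => lit ψ φ (sub_all hs) (Fin.snoc (fun i => e (v i)) b)
    refine ⟨{Λ | ∃ e : ℕ → Fin r ⊕ Fin n, Set.InjOn e {i | i < t} ∧ Λ = F e}, ?_, ?_, ?_, ?_⟩
    · rintro σ _ ⟨e, he, rfl⟩
      refine ⟨fun i => pm σ (e i), fun i hi j hj hij => he hi hj (pm_inj σ hij), ?_⟩
      have h5 : σ • (Lit.neg '' Set.range fun b => lit ψ φ (sub_all hs)
          (Fin.snoc (fun i => e (v i)) b)) = Lit.neg '' Set.range fun b => lit ψ φ (sub_all hs)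
          (Fin.snoc (fun i => pm σ (e (v i))) b) := by
        ext x
        constructor
        · intro hx
          obtain ⟨_, ⟨_, ⟨b, rfl⟩, rfl⟩, rfl⟩ := Set.mem_smul_set.1 hx
          refine ⟨_, ⟨pm σ b, rfl⟩, ?_⟩
          show (lit ψ φ (sub_all hs) (Fin.snoc (fun i => pm σ (e (v i))) (pm σ b))).neg =
            σ • (lit ψ φ (sub_all hs) (Fin.snoc (fun i => e (v i)) b)).neg
          rw [smul_neg, ← lit_act, snoc_comp]
        · rintro ⟨_, ⟨b, rfl⟩, rfl⟩
          refine Set.mem_smul_set.2 ⟨_, ⟨_, ⟨pm σ⁻¹ b, rfl⟩, rfl⟩, ?_⟩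
          show σ • (lit ψ φ (sub_all hs) (Fin.snoc (fun i => e (v i)) (pm σ⁻¹ b))).neg =
            (lit ψ φ (sub_all hs) (Fin.snoc (fun i => pm σ (e (v i))) b)).neg
          rw [smul_neg, ← lit_act, snoc_comp, pm_pm_inv]
      exact Set.smul_set_union.trans (congrArg₂ (· ∪ ·) (line_smul ψ σ e Γ) h5)
    · apply ncard_pat p₀
      intro e e' hee
      have h5 : (fun i => e (v i)) = fun i => e' (v i) :=
        funext fun i => hee _ ((h1 _ h3).2 i)
      show line ψ e Γ ∪ _ = line ψ e' Γ ∪ _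
      rw [line_congr h1 hee, h5]
    · rintro _ ⟨e, he, rfl⟩
      have h5 := hP _ h4 ⟨e, he, rfl⟩
      rw [line_insert (sub_all hs)] at h5
      refine .weak h5 ?_
      rintro x (rfl | hx)
      · right
        refine ⟨_, ⟨e b, rfl⟩, ?_⟩
        show (lit ψ φ (sub_all hs) (Fin.snoc (fun i => e (v i)) (e b))).neg = _
        rw [← snoc_comp]
        rfl
      · exact Or.inl hx
    · intro e he
      have h5 := mem_line (e := e) h3 hs
      exact .andE (S := Set.range fun b => lit ψ φ (sub_all hs) (Fin.snoc (fun i => e (v i)) b))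
        rfl h5 (Or.inr ⟨e, he, rfl⟩)
  | allR φ v h1 h2 h3 h4 =>
    refine trivQ fun e he => ?_
    have hs := (h1 _ h2).1
    have h5 := mem_line (e := e) h2 hs
    refine .andI (S := Set.range fun b => lit ψ φ (sub_all hs) (Fin.snoc (fun i => e (v i)) b))
      rfl h5 ?_
    rintro _ ⟨b, rfl⟩
    show insert (lit ψ φ (sub_all hs) (Fin.snoc (fun i => e (v i)) b)) (line ψ e Γ) ∈ P
    by_cases hb : ∃ i < t, e i = b
    · obtain ⟨i, hi, rfl⟩ := hb
      have h6 := hP _ (h3 i hi) ⟨e, he, rfl⟩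
      rw [line_insert (sub_all hs), snoc_comp] at h6
      exact h6
    · push Not at hb
      have h6 := hP _ h4 ⟨Function.update e t b, injOn_update he hb, rfl⟩
      have h7 : ∀ i < t, Function.update e t b i = e i := fun i hi =>
        Function.update_of_ne hi.ne _ _
      have h8 : (fun i => Function.update e t b (v i)) = fun i => e (v i) :=
        funext fun i => h7 _ ((h1 _ h2).2 i)
      rw [line_insert (sub_all hs), snoc_comp, line_congr h1 h7, h8, Function.update_self] at h6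
      exact h6
  | new h1 h2 =>
    refine trivQ fun e he => ?_
    obtain ⟨b, hb⟩ := exists_new ht e
    have h6 := hP _ h2 ⟨Function.update e t b, injOn_update he hb, rfl⟩
    have h7 : ∀ i < t, Function.update e t b i = e i := fun i hi =>
      Function.update_of_ne hi.ne _ _
    rw [line_congr h1 h7] at h6
    exact .weak h6 subset_rfl

end Pool.H31.SY
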