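import Pool.Agent.H31.SY.Upper

set_option autoImplicit false

/-!
# More facts; the upper bound with facts
-/

namespace Pool.H31.SY

open FirstOrder FirstOrder.Language Pool.H93.SY
open scoped Pointwise

variable {L : FirstOrder.Language.{0, 0}} [L.IsRelational]

theorem step_more {ψ : L.Sentence} {m s n : ℕ} {D D' : Set (Atom L (Fin s ⊕ Fin n) × Bool)}
    (hD : D ⊆ D') {C : Circuit L m s n} {P Q : Set (Set (Lit C.N))}
    (h : P ⊆ Q) {Γ : Set (Lit C.N)} (hs : Step ψ D C P Γ) : Step ψ D' C Q Γ := by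
  cases hs with
  | hyp h1 h2 => exact .hyp h1 h2
  | fact h1 h2 h3 => exact .fact h1 (hD h2) h3
  | ident h1 h2 h3 => exact .ident h1 h2 h3
  | weak h1 h2 => exact .weak (h h1) h2
  | cut h1 h2 => exact .cut (h h1) (h h2)
  | andI h1 h2 h3 => exact .andI h1 h2 fun x hx => h (h3 x hx)
  | andE h1 h2 h3 => exact .andE h1 h2 (h h3)
  | total h1 => exact .total h1
  | excl h1 h2 h3 h4 h5 => exact .excl h1 h2 h3 h4 h5
  | one h1 h2 h3 => exact .one h1 h2 h3
  | zero h1 h2 h3 => exact .zero h1 h2 h3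
  | sum h1 h2 h3 h4 h5 h6 => exact .sum h1 h2 h3 h4 h5 h6

/-- A refutation which uses more facts. -/
def more {ψ : L.Sentence} {m s n : ℕ} {D D' : Set (Atom L (Fin s ⊕ Fin n) × Bool)}
    (hD : D ⊆ D') (R : Refutation ψ m s n D) : Refutation ψ m s n D' where
  C := R.C
  lines := R.lines
  smul_mem := R.smul_mem
  order := R.order
  step := fun Γ hΓ => step_more hD subset_rfl (R.step Γ hΓ)
  empty_mem := R.empty_mem

/-- The upper bound with facts. -/
theorem upperD {L : FirstOrder.Language.{0, 0}} [L.IsRelational] (ψ : L.Sentence)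
    (h : ∀ (M : Type) [L.Structure M] [Infinite M], ¬ M ⊨ ψ) :
    ∃ c : ℕ, ∀ s n : ℕ, c ≤ s + n → ∀ (m : ℕ) (D : Set (Atom L (Fin s ⊕ Fin n) × Bool)),
      ∃ R : Refutation ψ m s n D, R.size ≤ (s + n) ^ c ∧
      (∀ a, R.C.rank a ≤ c) ∧ ∀ a c' S, R.C.gate a ≠ .mod c' S := by
  obtain ⟨c, hc⟩ := upper ψ h
  refine ⟨c, fun s n hsn m D => ?_⟩
  obtain ⟨R, h1, h2, h3⟩ := hc s n hsn m
  exact ⟨more (Set.empty_subset D) R, h1, h2, h3⟩

end Pool.H31.SY
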